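import Pool.Agent.MP_52bf41_ag.H12.Spec

/-! The ring `A[z,w]/((z - q_i) w_i - t_i)`. -/

open Polynomial Matrix

namespace Pool.Agent.MP_52bf41_ag.H80

open H12

variable {A B R : Type} [CommRing A] [CommRing B] [CommRing R] {D : ℕ}

theorem map_comb {ι : Type} [Fintype ι] (θ : B →+* R) (φ : A →+* B) (u : ι → B) (c : A)
    (P : ι → A[X]) : θ (comb φ u c P) = comb (θ.comp φ) (fun a => θ (u a)) c P := by
  simp only [comb, map_add, map_sum, map_mul, hom_eval₂, RingHom.comp_apply]

/-- `comb` as a linear map. -/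
noncomputable def combL {ι : Type} [Fintype ι] [Algebra A B] (u : ι → B) :
    (A × (ι → A[X])) →ₗ[A] B where
  toFun x := comb (algebraMap A B) u x.1 x.2
  map_add' x y := by
    simp only [comb, Prod.fst_add, Prod.snd_add, Pi.add_apply, map_add, eval₂_add, mul_add,
      Finset.sum_add_distrib]
    ring
  map_smul' a x := by
    simp only [comb, Prod.smul_fst, Prod.smul_snd, Pi.smul_apply, smul_eq_mul, map_mul,
      eval₂_smul, RingHom.id_apply, Algebra.smul_def a (_ : B), mul_add, Finset.mul_sum]
    exact congrArg _ (Finset.sum_congr rfl fun _ _ => by ring)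

theorem ww {φ : A →+* B} {u : Option (Fin D) → B} {q t : Fin D → A} (hq : Good q)
    (h : ∀ i, (u none - φ (q i)) * u (some i) = φ (t i)) {i l : Fin D} (hil : i ≠ l) :
    ∃ α β : A, u (some i) * u (some l) = φ α * u (some i) + φ β * u (some l) := by
  obtain ⟨e, he⟩ := (hq.1 i l hil).exists_left_inv
  refine ⟨e * t l, -(e * t i), ?_⟩
  have h1 := congrArg φ he
  simp only [map_mul, map_sub, map_one, map_neg] at h1 ⊢
  linear_combination (-(u (some i) * u (some l))) * h1 + φ e * u (some i) * h l
    - φ e * u (some l) * h i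

theorem sSpan : SSpan := by
  classical
  intro A B _ _ D φ u q t hq hs h b
  let := φ.toAlgebra
  have hφ : algebraMap A B = φ := rfl
  let S : Submodule A B := Submodule.span A (Set.range fun x : Option (Fin D) × ℕ => u x.1 ^ x.2)
  have hg : ∀ a n, u a ^ n ∈ S := fun a n => Submodule.subset_span ⟨(a, n), rfl⟩
  have rel : ∀ a b, a ≠ b → ∃ α β γ : A, u a * u b = φ α * u a + φ β * u b + φ γ := by
    rintro (_ | i) (_ | l) hab
    · exact absurd rfl hab
    · exact ⟨0, q l, t l, by rw [map_zero]; linear_combination h l⟩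
    · exact ⟨q i, 0, t i, by rw [map_zero]; linear_combination h i⟩
    · obtain ⟨α, β, e⟩ := ww hq h (i := i) (l := l) fun e => hab (congrArg some e)
      exact ⟨α, β, 0, by rw [map_zero, add_zero, e]⟩
  have h1 : ∀ a b n, u a ^ n * u b ∈ S := by
    intro a b n
    by_cases hab : a = b
    · rw [← hab, ← pow_succ]; exact hg _ _
    obtain ⟨α, β, γ, e⟩ := rel a b hab
    induction n with
    | zero => simpa using hg b 1
    | succ n ih =>
      have : u a ^ (n + 1) * u b = α • u a ^ (n + 1) + β • (u a ^ n * u b) + γ • u a ^ n := by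
        simp only [Algebra.smul_def, hφ]
        linear_combination u a ^ n * e
      rw [this]
      exact S.add_mem (S.add_mem (S.smul_mem _ (hg _ _)) (S.smul_mem _ ih)) (S.smul_mem _ (hg _ _))
  have h2 : ∀ x ∈ S, ∀ b, x * u b ∈ S := by
    intro x hx b
    induction hx using Submodule.span_induction with
    | mem x hx => obtain ⟨⟨a, n⟩, rfl⟩ := hx; exact h1 a b n
    | zero => simp
    | add x y _ _ hx hy => rw [add_mul]; exact S.add_mem hx hy
    | smul a x _ hx => rw [smul_mul_assoc]; exact S.smul_mem _ hx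
  have h3 : ∀ p, MvPolynomial.eval₂Hom φ u p ∈ S := by
    intro p
    induction p using MvPolynomial.induction_on with
    | C a =>
      have := S.smul_mem a (hg none 0)
      simpa [Algebra.smul_def, hφ] using this
    | add p r hp hr => rw [map_add]; exact S.add_mem hp hr
    | mul_X p b hp => rw [map_mul, MvPolynomial.eval₂Hom_X']; exact h2 _ hp b
  have h4 : S ≤ LinearMap.range (combL (A := A) u) := by
    refine Submodule.span_le.2 ?_
    rintro _ ⟨⟨a, _ | n⟩, rfl⟩
    · exact ⟨(1, 0), by simp [combL, comb]⟩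
    · refine ⟨(0, Pi.single a (X ^ n)), ?_⟩
      simp only [combL, comb, LinearMap.coe_mk, AddHom.coe_mk, map_zero, zero_add]
      rw [Finset.sum_eq_single a]
      · simp [pow_succ']
      · intro b _ hb; simp [hb]
      · simp
  obtain ⟨p, rfl⟩ := hs b
  obtain ⟨x, hx⟩ := h4 (h3 p)
  exact ⟨x.1, x.2, hx.symm⟩

theorem pres_rel {φ : A →+* B} {u : Option (Fin D) → B} {q t : Fin D → A} (h : Pres φ u q t)
    (i : Fin D) : (u none - φ (q i)) * u (some i) = φ (t i) := by
  have := (h.2 (rel q t i)).2 (Ideal.subset_span ⟨i, rfl⟩)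
  simpa [rel, sub_eq_zero] using this

theorem span_le_ker (ρ : A →+* R) (v : Option (Fin D) → R) {q t : Fin D → A}
    (hv : ∀ i, (v none - ρ (q i)) * v (some i) = ρ (t i)) :
    Ideal.span (Set.range (rel q t)) ≤ RingHom.ker (MvPolynomial.eval₂Hom ρ v) := by
  refine Ideal.span_le.2 ?_
  rintro _ ⟨i, rfl⟩
  simp [rel, RingHom.mem_ker, hv i]

theorem pres_lift {φ : A →+* B} {u : Option (Fin D) → B} {q t : Fin D → A} (h : Pres φ u q t)
    (ρ : A →+* R) (v : Option (Fin D) → R)
    (hv : ∀ i, (v none - ρ (q i)) * v (some i) = ρ (t i)) :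
    ∃ χ : B →+* R, (∀ a, χ (φ a) = ρ a) ∧ ∀ b, χ (u b) = v b := by
  let χ := (MvPolynomial.eval₂Hom φ u).liftOfSurjective h.1
    ⟨MvPolynomial.eval₂Hom ρ v, fun p hp => span_le_ker ρ v hv ((h.2 p).1 hp)⟩
  have e : ∀ p, χ (MvPolynomial.eval₂Hom φ u p) = MvPolynomial.eval₂Hom ρ v p := fun p =>
    RingHom.liftOfRightInverse_comp_apply _ _ _ _ p
  exact ⟨χ, fun a => by simpa using e (MvPolynomial.C a), fun b => by
    simpa using e (MvPolynomial.X b)⟩

theorem pres_ext {φ : A →+* B} {u : Option (Fin D) → B} {q t : Fin D → A} (h : Pres φ u q t)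
    {f g : B →+* R} (h1 : ∀ a, f (φ a) = g (φ a)) (h2 : ∀ b, f (u b) = g (u b)) : f = g := by
  have : f.comp (MvPolynomial.eval₂Hom φ u) = g.comp (MvPolynomial.eval₂Hom φ u) :=
    MvPolynomial.ringHom_ext (fun a => by simpa using h1 a) fun b => by simpa using h2 b
  ext b
  obtain ⟨p, rfl⟩ := h.1 b
  exact congrArg (· p) this

/-- The chart at a pole: a map to any ring where the local parameter and the factors of the
denominator are units. -/
theorem pole_lift {R0 : Type} [CommRing R0] {φ : A →+* B} {u : Option (Fin D) → B}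
    {q t : Fin D → A} (h : Pres φ u q t) (a : Option (Fin D)) (ρ : A →+* R0) (x : R0)
    (hg : IsUnit ((gpol q t a).eval₂ ρ x)) (ι : R0 →+* R) (y : R) (hy : ι x * y = 1) :
    ∃ χ : B →+* R, (∀ c, χ (φ c) = ι (ρ c)) ∧ χ (u a) = y ∧ (∀ b, b ≠ a → χ (u b) ∈ ι.range) ∧
      ∀ i, a = some i → χ (u none) = ι (ρ (q i) + ρ (t i) * x) := by
  classical
  rcases a with _ | i
  · simp only [gpol, eval₂_finsetProd, IsUnit.prod_univ_iff, eval₂_sub, eval₂_one, eval₂_mul,
      eval₂_C, eval₂_X] at hg
    choose e he using fun l => (hg l).exists_left_inv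
    obtain ⟨χ, h1, h2⟩ := pres_lift h (ι.comp ρ)
      (fun b => Option.rec y (fun l => ι (ρ (t l) * x * e l)) b) fun l => by
        have := congrArg ι (he l)
        simp only [map_mul, map_sub, map_one, RingHom.comp_apply] at this ⊢
        linear_combination ι (ρ (t l)) * ι (e l) * hy + ι (ρ (t l)) * this
    refine ⟨χ, h1, h2 none, ?_, fun i hi => by cases hi⟩
    rintro (_ | l) hb
    · exact absurd rfl hb
    · exact ⟨_, (h2 (some l)).symm⟩
  · simp only [gpol, eval₂_finsetProd, IsUnit.prod_iff, eval₂_add, eval₂_mul,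
      eval₂_C, eval₂_X, Finset.mem_erase, Finset.mem_univ, and_true] at hg
    choose! e he using fun l (hl : l ≠ i) => (hg l hl).exists_left_inv
    obtain ⟨χ, h1, h2⟩ := pres_lift h (ι.comp ρ)
      (fun b => Option.rec (ι (ρ (q i) + ρ (t i) * x))
        (fun l => if l = i then y else ι (ρ (t l) * e l)) b) fun l => by
        by_cases hl : l = i
        · subst hl
          simp only [map_mul, map_add, RingHom.comp_apply, if_true]
          linear_combination ι (ρ (t l)) * hy
        · have := congrArg ι (he l hl)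
          simp only [map_mul, map_sub, map_add, map_one, RingHom.comp_apply, if_neg hl] at this ⊢
          linear_combination ι (ρ (t l)) * this
    refine ⟨χ, h1, by simpa using h2 (some i), ?_, fun j hj => by cases hj; exact h2 none⟩
    rintro (_ | l) hb
    · exact ⟨_, (h2 none).symm⟩
    · have hl : l ≠ i := fun e => hb (congrArg some e)
      exact ⟨ρ (t l) * e l, by simpa [hl] using (h2 (some l)).symm⟩

theorem sIndep : SIndep := by
  classical
  intro A B _ _ D φ u q t hq h c P hc
  let ι := HahnSeries.ofPowerSeries ℤ A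
  let y : LaurentSeries A := HahnSeries.single (-1) 1
  have hy : ι PowerSeries.X * y = 1 := by
    simp [ι, y, HahnSeries.single_mul_single]
  have hg : ∀ a, IsUnit ((gpol q t a).eval₂ (PowerSeries.C : A →+* _) PowerSeries.X) := by
    intro a
    rw [PowerSeries.isUnit_iff_constantCoeff, hom_eval₂]
    rcases a with _ | i
    · simp [gpol, eval₂_finsetProd]
    · simp only [gpol, eval₂_finsetProd, IsUnit.prod_iff, eval₂_add, eval₂_mul,
        eval₂_C, eval₂_X, Finset.mem_erase, Finset.mem_univ, and_true]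
      intro l hl
      simpa using hq.1 i l hl.symm
  have hP : P = 0 := by
    funext a
    obtain ⟨χ, h1, h2, h3, -⟩ := pole_lift h a PowerSeries.C PowerSeries.X (hg a) ι y hy
    have e : χ.comp φ = ι.comp PowerSeries.C := RingHom.ext h1
    have h4 := congrArg χ hc
    rw [map_comb, map_zero, comb, e, ← Finset.add_sum_erase _ _ (Finset.mem_univ a), h2] at h4
    have h5 : y * (P a).eval₂ (ι.comp PowerSeries.C) y ∈ ι.range := by
      rw [eq_neg_of_add_eq_zero_left ((add_left_comm _ _ _).trans h4)]
      refine neg_mem (add_mem ⟨_, rfl⟩ (sum_mem fun b hb => ?_))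
      obtain ⟨r, hr⟩ := h3 b (Finset.mem_erase.1 hb).1
      exact ⟨r * (P b).eval₂ PowerSeries.C r, by rw [map_mul, hom_eval₂, hr]⟩
    obtain ⟨f, hf⟩ := h5
    ext n
    have h6 := congrArg (fun z : LaurentSeries A => z.coeff (-((n : ℤ) + 1))) hf
    have h7 : (ι f).coeff (-((n : ℤ) + 1)) = 0 := by
      have := PowerSeries.coeff_coe (R := A) f (-((n : ℤ) + 1))
      rw [if_pos (by omega)] at this
      exact this
    have h8 : ∀ (m : ℕ) (r : A), y * ((ι.comp PowerSeries.C) r * y ^ m)
        = HahnSeries.single (-((m : ℤ) + 1)) r := by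
      intro m r
      simp only [ι, y, RingHom.comp_apply, HahnSeries.ofPowerSeries_C, HahnSeries.C_apply,
        HahnSeries.single_pow, HahnSeries.single_mul_single, one_pow, mul_one, one_mul]
      congr 1
      simp
    simp only [h7, eval₂_eq_sum, Polynomial.sum, Finset.mul_sum, h8, HahnSeries.coeff_sum,
      HahnSeries.coeff_single, neg_inj, add_left_inj, Nat.cast_inj, Finset.sum_ite_eq,
      mem_support_iff] at h6
    split_ifs at h6 with h9
    · exact h6.symm
    · simpa using h9
  refine ⟨?_, hP⟩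
  obtain ⟨χ, h1, -⟩ := pole_lift h none PowerSeries.C PowerSeries.X (hg none) ι y hy
  have h4 := congrArg χ hc
  simp only [hP, comb, Pi.zero_apply, eval₂_zero, mul_zero, Finset.sum_const_zero, add_zero,
    map_zero, h1] at h4
  have h5 : PowerSeries.C c = 0 :=
    HahnSeries.ofPowerSeries_injective (Γ := ℤ) (h4.trans (map_zero ι).symm)
  exact PowerSeries.C_injective (h5.trans (map_zero _).symm)

theorem sPresOf : SPresOf := by
  intro A B _ _ D φ u q t hq hs h hi
  refine ⟨hs, fun p => ⟨fun hp => ?_, fun hp => span_le_ker φ u h hp⟩⟩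
  let I := Ideal.span (Set.range (rel q t))
  have e : MvPolynomial.eval₂Hom ((Ideal.Quotient.mk I).comp MvPolynomial.C)
      (fun a => Ideal.Quotient.mk I (MvPolynomial.X a)) = Ideal.Quotient.mk I :=
    MvPolynomial.ringHom_ext (fun a => by simp) fun b => by simp
  obtain ⟨c, P, hc⟩ := sSpan A _ D ((Ideal.Quotient.mk I).comp MvPolynomial.C)
    (fun a => Ideal.Quotient.mk I (MvPolynomial.X a)) q t hq
    (by rw [e]; exact Ideal.Quotient.mk_surjective)
    (fun i => by
      have : Ideal.Quotient.mk I (rel q t i) = 0 :=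
        Ideal.Quotient.eq_zero_iff_mem.2 (Ideal.subset_span ⟨i, rfl⟩)
      simpa [rel, sub_eq_zero] using this) (Ideal.Quotient.mk I p)
  let θ := Ideal.Quotient.lift I (MvPolynomial.eval₂Hom φ u) (span_le_ker φ u h)
  have h1 := congrArg θ hc
  have e1 : θ.comp ((Ideal.Quotient.mk I).comp MvPolynomial.C) = φ := by ext a; simp [θ]
  have e2 : (fun a => θ (Ideal.Quotient.mk I (MvPolynomial.X a))) = u := by ext a; simp [θ]
  rw [map_comb, e1, e2, Ideal.Quotient.lift_mk, hp] at h1
  obtain ⟨rfl, rfl⟩ := hi c P h1.symm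
  exact Ideal.Quotient.eq_zero_iff_mem.1 (by simpa [comb] using hc)

theorem sPresFlat : SPresFlat := by
  intro A B _ _ D φ u q t hq h
  let := φ.toAlgebra
  have hb : Function.Bijective (combL (A := A) u) := by
    refine ⟨(injective_iff_map_eq_zero _).2 fun x hx => ?_, fun b => ?_⟩
    · obtain ⟨h1, h2⟩ := sIndep A B D φ u q t hq h x.1 x.2 hx
      exact Prod.ext h1 h2
    · obtain ⟨c, P, hc⟩ := sSpan A B D φ u q t hq h.1 (pres_rel h) b
      exact ⟨(c, P), hc.symm⟩
  exact Module.Flat.of_linearEquiv (LinearEquiv.ofBijective _ hb).symm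

theorem sLocId : SLocId := by
  classical
  intro A B B' _ _ _ D φ u q t hq h ψ a s hψ hs
  let := ψ.toAlgebra
  let := (eval₂RingHom (ψ.comp φ) s).toAlgebra
  have : IsLocalization.Away (MvPolynomial.eval₂Hom φ u (hpol q a)) B' := hψ
  let L := Localization.Away (X * gpol q t a)
  have hL : IsUnit (algebraMap A[X] L (X * gpol q t a)) := IsLocalization.Away.algebraMap_isUnit _
  rw [map_mul, IsUnit.mul_iff] at hL
  obtain ⟨y, hy⟩ := hL.1.exists_right_inv
  have ev : ∀ p : A[X], p.eval₂ ((algebraMap A[X] L).comp C) (algebraMap A[X] L X)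
      = algebraMap A[X] L p := fun p => by rw [← hom_eval₂, eval₂_C_X]
  have hg := hL.2
  rw [← ev] at hg
  obtain ⟨χ, h1, h2, -, h3⟩ := pole_lift h a _ _ hg (RingHom.id L) y hy
  simp only [RingHom.id_apply] at h1 h3
  have yu : IsUnit y := IsUnit.of_mul_eq_one_right _ hy
  have su : IsUnit s := IsUnit.of_mul_eq_one_right _ hs
  have hh : IsUnit (ψ (MvPolynomial.eval₂Hom φ u (hpol q a))) :=
    IsLocalization.Away.algebraMap_isUnit _
  have r := fun i => congrArg ψ (pres_rel h i)
  simp only [map_mul, map_sub] at r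
  have key : IsUnit (χ (MvPolynomial.eval₂Hom φ u (hpol q a))) ∧
      IsUnit (eval₂RingHom (ψ.comp φ) s (X * gpol q t a)) ∧
      (∀ l, some l ≠ a → IsUnit (ψ (u none) - ψ (φ (q l)))) := by
    rcases a with _ | i
    · simp only [gpol, hpol, eval₂_finsetProd, IsUnit.prod_univ_iff, eval₂_sub, eval₂_one,
        eval₂_mul, eval₂_C, eval₂_X, map_mul, map_prod, map_sub, MvPolynomial.eval₂Hom_X',
        MvPolynomial.eval₂Hom_C, IsUnit.mul_iff, h1, h2, coe_eval₂RingHom, map_one] at hg hh ⊢
      refine ⟨⟨yu, fun l => ?_⟩, ⟨su, fun l => ?_⟩, fun l _ => hh.2 l⟩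
      · have e : y - ((algebraMap A[X] L).comp C) (q l) = y * (1 -
            ((algebraMap A[X] L).comp C) (q l) * algebraMap A[X] L X) := by
          linear_combination ((algebraMap A[X] L).comp C) (q l) * hy
        rw [e]; exact yu.mul (hg l)
      · have e : 1 - (ψ.comp φ) (q l) * s = s * (ψ (u none) - ψ (φ (q l))) := by
          simp only [RingHom.comp_apply]
          linear_combination -hs
        rw [e]; exact su.mul (hh.2 l)
    · simp only [gpol, hpol, eval₂_finsetProd, IsUnit.prod_iff, eval₂_add,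
        eval₂_mul, eval₂_C, eval₂_X, map_mul, map_prod, map_sub, map_add, MvPolynomial.eval₂Hom_X',
        MvPolynomial.eval₂Hom_C, IsUnit.mul_iff, h1, h2, h3 i rfl, coe_eval₂RingHom,
        Finset.mem_erase, Finset.mem_univ, and_true, eval₂_sub] at hg hh ⊢
      refine ⟨⟨yu, fun l hl => ?_⟩, ⟨su, fun l hl => ?_⟩,
        fun l hl => hh.2 l fun e => hl (congrArg some e)⟩
      · convert hg l hl using 1
        ring
      · convert hh.2 l hl using 1
        simp only [RingHom.comp_apply]
        linear_combination (ψ (u none) - ψ (φ (q i))) * hs - s * r i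
  let f : B' →+* L := IsLocalization.Away.lift _ key.1
  let g : L →+* B' := IsLocalization.Away.lift _ key.2.1
  have hf : ∀ b, f (ψ b) = χ b := fun b => IsLocalization.Away.lift_eq _ key.1 b
  have hg' : ∀ p, g (algebraMap A[X] L p) = p.eval₂ (ψ.comp φ) s := fun p =>
    IsLocalization.Away.lift_eq _ key.2.1 p
  have ga : g (χ (u a)) = ψ (u a) := by
    have := congrArg g hy
    rw [map_mul, hg', eval₂_X, map_one] at this
    rw [h2]
    exact su.mul_left_cancel (this.trans (by rw [mul_comm, hs]))
  have gc : ∀ c, g (χ (φ c)) = ψ (φ c) := fun c => by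
    rw [h1, RingHom.comp_apply, hg', eval₂_C, RingHom.comp_apply]
  have gz : g (χ (u none)) = ψ (u none) := by
    rcases a with _ | i
    · exact ga
    · rw [h3 i rfl, map_add, map_mul, ← h1, ← h1, gc, gc, hg', eval₂_X]
      linear_combination (ψ (u none) - ψ (φ (q i))) * hs - s * r i
  have e1 : g.comp χ = ψ := pres_ext h gc fun b => by
    by_cases hb : b = a
    · rw [hb]; exact ga
    rcases b with _ | l
    · exact gz
    · have := congrArg (g.comp χ) (pres_rel h l)
      simp only [map_mul, map_sub, RingHom.comp_apply, gz, gc] at this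
      exact (key.2.2 l hb).mul_left_cancel (this.trans (r l).symm)
  have e2 : g.comp f = RingHom.id _ := by
    refine IsLocalization.ringHom_ext (Submonoid.powers (MvPolynomial.eval₂Hom φ u (hpol q a))) ?_
    ext b
    exact (congrArg g (hf b)).trans (congrArg (· b) e1)
  have e3 : f.comp g = RingHom.id _ := by
    refine IsLocalization.ringHom_ext (Submonoid.powers (X * gpol q t a)) ?_
    refine Polynomial.ringHom_ext (fun c => ?_) ?_
    · simp only [RingHom.comp_apply, hg', eval₂_C, hf, h1, RingHom.id_apply]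
    · simp only [RingHom.comp_apply, hg', eval₂_X, RingHom.id_apply]
      have := congrArg f hs
      rw [map_mul, hf, h2, map_one] at this
      exact yu.mul_left_cancel (this.trans ((mul_comm _ _).trans hy).symm)
  exact IsLocalization.isLocalization_of_algEquiv (Submonoid.powers (X * gpol q t a))
    (AlgEquiv.ofRingEquiv (f := RingEquiv.ofRingHom g f e2 e3) hg')

theorem sYInd : SYInd := by
  classical
  intro A B _ _ D φ u q t hq h
  have hi := sIndep A B D φ u q t hq h
  have p1 : ∀ r : Fin (D + 1) → A, ∑ a, φ (r a) * yv u a = 0 → r = 0 := by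
    intro r hr
    obtain ⟨h1, h2⟩ := hi (r 0) (fun b => Option.rec 0 (fun i => C (r i.succ)) b) (by
      rw [← hr]
      simp [comb, yv, Fin.sum_univ_succ, mul_comm])
    funext a
    refine Fin.cases h1 (fun i => ?_) a
    simpa using congrFun h2 (some i)
  refine ⟨p1, fun δ c h0 hδ => ?_⟩
  let := φ.toAlgebra
  have hφ : algebraMap A B = φ := rfl
  have row := fun i => congrFun hδ i
  simp only [mulVec, dotProduct, map_apply, Pi.smul_apply, smul_eq_mul] at row
  have r0 := row 0
  simp only [Fin.sum_univ_succ, h0, yv, Fin.cons_zero, Fin.cons_succ, one_apply_eq, map_one,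
    mul_one] at r0
  have hr : ∀ i : Fin D, δ 0 i.succ = 0 := by
    intro i
    let W : Submodule A B := Submodule.span A (Set.range fun l => u (some l))
    have hw : ∀ (e : A) l, φ e * u (some l) ∈ W := fun e l =>
      W.smul_mem e (Submodule.subset_span ⟨l, rfl⟩)
    have ri := row i.succ
    simp only [Fin.sum_univ_succ, h0, yv, Fin.cons_zero, Fin.cons_succ,
      one_apply_ne (Fin.succ_ne_zero i), map_zero, zero_mul, zero_add] at ri
    rw [← r0, add_mul, Finset.sum_mul, ← Finset.add_sum_erase _
      (fun l => φ (δ 0 l.succ) * u (some l) * u (some i)) (Finset.mem_univ i)] at ri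
    have hm : φ (δ 0 i.succ) * u (some i) * u (some i) ∈ W := by
      have : φ (δ 0 i.succ) * u (some i) * u (some i)
          = ∑ l, φ (δ i.succ l.succ) * u (some l) - φ 1 * u (some i) -
            ∑ l ∈ Finset.univ.erase i, φ (δ 0 l.succ) * u (some l) * u (some i) := by
        rw [map_one]; linear_combination -ri
      rw [this]
      refine sub_mem (sub_mem (sum_mem fun l _ => hw _ _) (hw _ _)) (sum_mem fun l hl => ?_)
      obtain ⟨α, β, e⟩ := ww hq (pres_rel h) (Finset.mem_erase.1 hl).1
      rw [mul_assoc, e]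
      exact W.smul_mem (δ 0 l.succ) (add_mem (hw _ _) (hw _ _))
    obtain ⟨m, hm⟩ := (Submodule.mem_span_range_iff_exists_fun A).1 hm
    obtain ⟨-, h2⟩ := hi 0
      (fun b => Option.rec 0 (fun l => C (m l) - if l = i then C (δ 0 i.succ) * X else 0) b) (by
        simp only [Algebra.smul_def, hφ] at hm
        simp only [comb, map_zero, zero_add, Fintype.sum_option, eval₂_zero, mul_zero, eval₂_sub,
          eval₂_C, mul_sub, Finset.sum_sub_distrib, apply_ite (eval₂ φ _), eval₂_mul, eval₂_X,
          mul_ite, Finset.sum_ite_eq', Finset.mem_univ, if_true]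
        simp only [mul_comm (u _)]
        rw [hm]; ring)
    have := congrArg (coeff · 1) (congrFun h2 (some i))
    simpa [coeff_C] using this
  simp only [hr, map_zero, zero_mul, Finset.sum_const_zero, add_zero] at r0
  ext i a
  have := p1 (fun a => δ i a - (1 : Matrix _ _ A) i a) (by
    simp only [map_sub, sub_mul, Finset.sum_sub_distrib, row i, ← r0, one_mul, one_apply,
      apply_ite φ, map_one, map_zero, ite_mul, zero_mul, Finset.sum_ite_eq, Finset.mem_univ,
      if_true, sub_self])
  exact sub_eq_zero.1 (congrFun this a)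

end Pool.Agent.MP_52bf41_ag.H80
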